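import Pool.Agent.N436.DF.Stm3

/-!
# Project DF (helper436): enlarging the set of potential 8 (`S3_out`)
-/

namespace Pool.Agent.N634.DF

open Finset Pool.Agent.N436.DF

variable {V : Type} [DecidableEq V]

/-- Adding to `X` the vertex `q`. -/
theorem add_q (hb : S3_base) (hC : S3_clC) [Infinite V] {H : Hub V} {S X Z : Finset V}
    (h3 : C3 H S Z) (hXZ : X ⊆ Z) (hRB : RB H S X) (h8 : hp H X = 8) {q : V} (hq : q ∈ S \ Z) :
    RB H S (X ∪ {q}) ∧ hp H (X ∪ {q}) = 8 + hp H {q} - 5 * ∑ x ∈ X, H.m x q ∧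
      X ∪ {q} ⊆ S ∧ X.card < (X ∪ {q}).card := by
  have hok : Ok P13 H := h3.mc.ok
  obtain ⟨hqS, hqZ⟩ := Finset.mem_sdiff.1 hq
  have hqX : q ∉ X := fun h => hqZ (hXZ h)
  refine ⟨?_, ?_, ?_, ?_⟩
  · obtain ⟨y, hy, z, hz, hyz⟩ := hRB
    obtain ⟨hzS, hzX⟩ := Finset.mem_sdiff.1 hz
    refine ⟨y, Finset.mem_union_left _ hy, z, ?_, hyz⟩
    have hyS : y ∈ S := h3.sub (hXZ hy)
    have hzZ : z ∈ Z := hC V H S Z h3 z hzS y hyS (by rw [hok.rsymm]; exact hyz)
    rw [Finset.mem_sdiff, Finset.mem_union, Finset.mem_singleton]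
    refine ⟨hzS, ?_⟩
    rintro (h | h)
    · exact hzX h
    · exact hqZ (h ▸ hzZ)
  · have h1 := ((hb V H hok).2.1) X {q} (Finset.disjoint_singleton_right.2 hqX)
    rw [h1, h8]
    have h2 : rr H X {q} = 0 := by
      unfold rr
      refine Finset.sum_eq_zero fun x hx => ?_
      rw [Finset.sum_singleton]
      rcases hok.r01 x q with h | h
      · exact h
      · exact absurd ⟨x, hXZ hx, q, hq, h⟩ h3.cl
    have h4 : mm H X {q} = ∑ x ∈ X, H.m x q := by
      unfold mm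
      exact Finset.sum_congr rfl fun x hx => by rw [Finset.sum_singleton]
    rw [h2, h4]
    ring
  · intro y hy
    rw [Finset.mem_union, Finset.mem_singleton] at hy
    rcases hy with h | h
    · exact h3.sub (hXZ h)
    · rw [h]
      exact hqS
  · refine Finset.card_lt_card ?_
    rw [Finset.ssubset_iff_of_subset Finset.subset_union_left]
    exact ⟨q, by simp, hqX⟩

/-- Sums over `X` after the exchange of `a ∈ X` and `x ∉ X`. -/
theorem sum_swap {X : Finset V} {a x : V} (ha : a ∈ X) (hx : x ∉ X) (g : V → ℤ) :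
    ∑ u ∈ X, g (Equiv.swap a x u) = ∑ u ∈ X, g u - g a + g x := by
  rw [← Finset.add_sum_erase X (fun u => g (Equiv.swap a x u)) ha,
    ← Finset.add_sum_erase X g ha]
  have h1 : ∑ u ∈ X.erase a, g (Equiv.swap a x u) = ∑ u ∈ X.erase a, g u := by
    refine Finset.sum_congr rfl fun u hu => ?_
    have hux : u ≠ x := by
      rintro rfl
      exact hx (Finset.mem_of_mem_erase hu)
    rw [Equiv.swap_apply_of_ne_of_ne (Finset.ne_of_mem_erase hu) hux]
  rw [h1]
  simp only [Equiv.swap_apply_left]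
  ring

theorem sum_swap_both {Z : Finset V} {a x : V} (ha : a ∈ Z) (hx : x ∈ Z) (g : V → ℤ) :
    ∑ u ∈ Z, g (Equiv.swap a x u) = ∑ u ∈ Z, g u := by
  refine Finset.sum_bij (fun u _ => Equiv.swap a x u) ?_ ?_ ?_ ?_
  · intro u hu
    rcases eq_or_ne u a with h | h
    · rw [h, Equiv.swap_apply_left]
      exact hx
    · rcases eq_or_ne u x with h' | h'
      · rw [h', Equiv.swap_apply_right]
        exact ha
      · rw [Equiv.swap_apply_of_ne_of_ne h h']
        exact hu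
  · intro u _ v _ h
    exact (Equiv.swap a x).injective h
  · intro v hv
    refine ⟨Equiv.swap a x v, ?_, Equiv.swap_apply_self a x v⟩
    rcases eq_or_ne v a with h | h
    · rw [h, Equiv.swap_apply_left]
      exact hx
    · rcases eq_or_ne v x with h' | h'
      · rw [h', Equiv.swap_apply_right]
        exact ha
      · rw [Equiv.swap_apply_of_ne_of_ne h h']
        exact hv
  · intro u _
    rfl

theorem out_ind (hb : S3_base) (hB : S3_clB) (hC : S3_clC) (hw : S3_swap) [Infinite V]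
    {S X Z : Finset V} (hXZ : X ⊆ Z) {q : V} (hq : q ∈ S \ Z) (n : ℕ) :
    ∀ H : Hub V, C3 H S Z → RB H S X → hp H X = 8 → 2 ≤ mm H X (S \ Z) →
      hp H {q} = 5 * ∑ x ∈ Z, H.m x q → ∑ x ∈ Z, H.m x q ≤ 2 →
      ∑ x ∈ Z, H.m x q - ∑ x ∈ X, H.m x q ≤ n →
      ∃ (H' : Hub V) (X' : Finset V), MinCex P13 H' S ∧ X' ⊆ S ∧ RB H' S X' ∧ hp H' X' = 8 ∧
        X.card < X'.card := by
  induction n with
  | zero =>
    intro H h3 hRB h8 h2 hq5 hj hn
    have hok : Ok P13 H := h3.mc.ok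
    have hle : ∑ x ∈ X, H.m x q ≤ ∑ x ∈ Z, H.m x q :=
      Finset.sum_le_sum_of_subset_of_nonneg hXZ fun x _ _ => hok.m_nn x q
    obtain ⟨h4, h5, h6, h7⟩ := add_q hb hC h3 hXZ hRB h8 hq
    refine ⟨H, X ∪ {q}, h3.mc, h6, h4, ?_, h7⟩
    rw [h5, hq5]
    push_cast at hn
    linarith
  | succ n ih =>
    intro H h3 hRB h8 h2 hq5 hj hn
    have hok : Ok P13 H := h3.mc.ok
    have hle : ∑ x ∈ X, H.m x q ≤ ∑ x ∈ Z, H.m x q :=
      Finset.sum_le_sum_of_subset_of_nonneg hXZ fun x _ _ => hok.m_nn x q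
    obtain ⟨hqS, hqZ⟩ := Finset.mem_sdiff.1 hq
    rcases eq_or_lt_of_le hle with heq | hlt
    · obtain ⟨h4, h5, h6, h7⟩ := add_q hb hC h3 hXZ hRB h8 hq
      refine ⟨H, X ∪ {q}, h3.mc, h6, h4, ?_, h7⟩
      rw [h5, hq5]
      linarith
    · obtain ⟨hB1, hB2, hB3, hB4, hB5, hB6, hB7, hB8⟩ := hB V H S Z h3
      -- the sums over `S \ Z`
      have hge : ∀ u v, v ∈ S \ Z → H.m u v ≤ ∑ z ∈ S \ Z, H.m u z := fun u v hv =>
        Finset.single_le_sum (f := fun z => H.m u z) (fun z _ => hok.m_nn u z) hv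
      -- `x ∈ Z \ X` with a unit to `q`
      obtain ⟨x, hxZ, hxX, hx1⟩ : ∃ x, x ∈ Z ∧ x ∉ X ∧ 1 ≤ H.m x q := by
        by_contra hcon
        push Not at hcon
        have h4 : ∑ x ∈ Z, H.m x q = ∑ x ∈ X, H.m x q := by
          refine (Finset.sum_subset hXZ fun y hy hyX => ?_).symm
          have h5 := hcon y hy hyX
          have h6 := hok.m_nn y q
          omega
        omega
      have hxbd : x ∈ bd H S Z :=
        Finset.mem_filter.2 ⟨hxZ, hx1.trans (hge x q hq)⟩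
      have hxs : ∑ z ∈ S \ Z, H.m x z = 1 := hB2 x hxbd
      have hxq : H.m x q = 1 := le_antisymm ((hge x q hq).trans hxs.le) hx1
      -- `a ∈ X` with a unit not to `q`
      obtain ⟨a, haX, ha1⟩ : ∃ a ∈ X, H.m a q < ∑ z ∈ S \ Z, H.m a z := by
        by_contra hcon
        push Not at hcon
        have h4 : mm H X (S \ Z) ≤ ∑ x ∈ X, H.m x q := Finset.sum_le_sum hcon
        omega
      have haZ : a ∈ Z := hXZ haX
      have ham : 0 ≤ H.m a q := hok.m_nn a q
      have habd : a ∈ bd H S Z := Finset.mem_filter.2 ⟨haZ, by omega⟩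
      have has : ∑ z ∈ S \ Z, H.m a z = 1 := hB2 a habd
      have haq : H.m a q = 0 := by omega
      obtain ⟨h3', hpY⟩ := hw V H S Z a x h3 habd hxbd
      -- the new multiplicities
      have hm : ∀ u v, u ∈ Z → v ∉ Z → (swp H Z a x).m u v = H.m (Equiv.swap a x u) v := by
        intro u v hu hv
        simp [swp, hu, hv]
      have e1 : ∑ u ∈ Z, (swp H Z a x).m u q = ∑ u ∈ Z, H.m u q := by
        rw [← sum_swap_both haZ hxZ (fun u => H.m u q)]
        exact Finset.sum_congr rfl fun u hu => hm u q hu hqZ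
      have e2 : ∑ u ∈ X, (swp H Z a x).m u q = ∑ u ∈ X, H.m u q + 1 := by
        have h4 := sum_swap haX hxX (fun u => H.m u q)
        have h5 : ∑ u ∈ X, (swp H Z a x).m u q = ∑ u ∈ X, H.m (Equiv.swap a x u) q :=
          Finset.sum_congr rfl fun u hu => hm u q (hXZ hu) hqZ
        rw [h5, h4, haq, hxq]
        ring
      have e3 : mm (swp H Z a x) X (S \ Z) = mm H X (S \ Z) := by
        have h4 := sum_swap haX hxX (fun u => ∑ z ∈ S \ Z, H.m u z)
        have h5 : mm (swp H Z a x) X (S \ Z) =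
            ∑ u ∈ X, ∑ z ∈ S \ Z, H.m (Equiv.swap a x u) z :=
          Finset.sum_congr rfl fun u hu => Finset.sum_congr rfl fun z hz =>
            hm u z (hXZ hu) (Finset.mem_sdiff.1 hz).2
        rw [h5, h4, has, hxs]
        unfold mm
        ring
      have e4 : hp (swp H Z a x) {q} = hp H {q} := by
        rw [(hb V _ h3'.mc.ok).2.2.2.1 q, (hb V H hok).2.2.2.1 q]
        rfl
      refine ih (swp H Z a x) h3' hRB (by rw [hpY X hXZ, h8]) (by rw [e3]; exact h2)
        (by rw [e4, e1, hq5]) (by rw [e1]; exact hj) ?_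
      rw [e1, e2]
      push_cast at hn
      linarith

theorem out3 (hb : S3_base) (hB : S3_clB) (hC : S3_clC) (hD : S3_clD) (hw : S3_swap) :
    S3_out := by
  intro V _ _ H S X Z hRB8 h3 hXZ hRB h8 h2
  have hok : Ok P13 H := h3.mc.ok
  obtain ⟨q, hq, hq0, hq1, hq2, hq3⟩ := hD V H S Z h3
  obtain ⟨hB1, hB2, hB3, hB4, hB5, hB6, hB7, hB8⟩ := hB V H S Z h3
  by_cases hQ : {q} = S \ Z
  · obtain ⟨h4, h5, h6, h7⟩ := add_q hb hC h3 hXZ hRB h8 hq
    refine ⟨H, X ∪ {q}, h3.mc, h6, h4, ?_, h7⟩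
    have h9 : 8 ≤ hp H (X ∪ {q}) := hRB8 H S h3.mc _ h6 h4
    have h10 : mm H X (S \ Z) = ∑ x ∈ X, H.m x q := by
      unfold mm
      rw [← hQ]
      exact Finset.sum_congr rfl fun x hx => by rw [Finset.sum_singleton]
    rw [h10] at h2
    rw [h5] at h9 ⊢
    omega
  · have h4 := hB8 {q} (Finset.singleton_subset_iff.2 hq) (Finset.singleton_nonempty q) hQ
    have h5 : mm H Z {q} = ∑ x ∈ Z, H.m x q := by
      unfold mm
      exact Finset.sum_congr rfl fun x hx => by rw [Finset.sum_singleton]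
    rw [h5] at h4
    have h6 : hp H {q} = 5 * ∑ x ∈ Z, H.m x q := le_antisymm hq2 h4
    refine out_ind hb hB hC hw hXZ hq (∑ x ∈ Z, H.m x q - ∑ x ∈ X, H.m x q).toNat H h3 hRB h8 h2
      h6 (by omega) (Int.self_le_toNat _)

end Pool.Agent.N634.DF
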